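import Mathlib

set_option autoImplicit false

namespace Pool.Agent.H72Z.En

open Real Finset

lemma g_anti : AntitoneOn (fun y : ℝ => y - y ^ 2 / 2 - log (1 + y)) (Set.Ioi (-1)) := by
  have hd : ∀ y ∈ Set.Ioi (-1 : ℝ), HasDerivAt (fun y : ℝ => y - y ^ 2 / 2 - log (1 + y))
      (1 - y - 1 / (1 + y)) y := by
    intro y hy
    have h1 : (1 + y) ≠ 0 := by
      have : -1 < y := hy
      linarith
    have h2 : HasDerivAt (fun y : ℝ => log (1 + y)) (1 / (1 + y)) y := by
      have := ((hasDerivAt_id y).const_add 1).log h1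
      simpa using this
    have h3 : HasDerivAt (fun y : ℝ => y ^ 2 / 2) y y := by
      have := (hasDerivAt_pow 2 y).div_const 2
      simpa using this
    exact ((hasDerivAt_id y).sub h3).sub h2
  apply antitoneOn_of_deriv_nonpos (convex_Ioi _)
  · intro y hy
    exact (hd y hy).continuousAt.continuousWithinAt
  · intro y hy
    rw [interior_Ioi] at hy
    exact (hd y hy).differentiableAt.differentiableWithinAt
  · intro y hy
    rw [interior_Ioi] at hy
    rw [(hd y hy).deriv]
    have h1 : 0 < 1 + y := by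
      have : -1 < y := hy
      linarith
    have : 1 - y - 1 / (1 + y) = -(y ^ 2 / (1 + y)) := by
      field_simp
      ring
    rw [this]
    have : 0 ≤ y ^ 2 / (1 + y) := by positivity
    linarith

lemma phi_ge_neg (y : ℝ) (h1 : -1 < y) (h0 : y ≤ 0) : y ^ 2 / 2 ≤ y - log (1 + y) := by
  have := g_anti (a := y) (b := 0) h1 (by simp) h0
  simp at this
  linarith

lemma phi_le_pos (y : ℝ) (h0 : 0 ≤ y) : y - log (1 + y) ≤ y ^ 2 / 2 := by
  have := g_anti (a := 0) (b := y) (by simp) (by show -1 < y; linarith) h0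
  simp at this
  linarith

lemma f_mono (t : ℝ) (h0 : 0 ≤ t) (h1 : t ≤ 1) :
    MonotoneOn (fun Y : ℝ => t * (1 - t) * Y + t ^ 2 * log (1 + Y) - log (1 + t * Y))
      (Set.Ici 0) := by
  have hd : ∀ y ∈ Set.Ici (0 : ℝ), HasDerivAt
      (fun Y : ℝ => t * (1 - t) * Y + t ^ 2 * log (1 + Y) - log (1 + t * Y))
      (t * (1 - t) + t ^ 2 * (1 / (1 + y)) - t / (1 + t * y)) y := by
    intro y hy
    have hy0 : 0 ≤ y := hy
    have e1 : (1 + y) ≠ 0 := by linarith
    have e2 : (1 + t * y) ≠ 0 := by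
      have : 0 ≤ t * y := mul_nonneg h0 hy0
      linarith
    have h2 : HasDerivAt (fun y : ℝ => log (1 + y)) (1 / (1 + y)) y := by
      have := ((hasDerivAt_id y).const_add 1).log e1
      simpa using this
    have h3 : HasDerivAt (fun y : ℝ => log (1 + t * y)) (t / (1 + t * y)) y := by
      have := (((hasDerivAt_id y).const_mul t).const_add 1).log e2
      simpa using this
    have h4 : HasDerivAt (fun y : ℝ => t * (1 - t) * y) (t * (1 - t)) y := by
      have := (hasDerivAt_id y).const_mul (t * (1 - t))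
      simpa using this
    exact (h4.add (h2.const_mul (t ^ 2))).sub h3
  apply monotoneOn_of_deriv_nonneg (convex_Ici _)
  · intro y hy
    exact (hd y hy).continuousAt.continuousWithinAt
  · intro y hy
    exact (hd y (interior_subset hy)).differentiableAt.differentiableWithinAt
  · intro y hy
    have hy' := interior_subset hy
    rw [(hd y hy').deriv]
    have hy0 : 0 ≤ y := hy'
    have e1 : 0 < (1 + y) := by linarith
    have e2 : 0 < (1 + t * y) := by
      have : 0 ≤ t * y := mul_nonneg h0 hy0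
      linarith
    have : t * (1 - t) + t ^ 2 * (1 / (1 + y)) - t / (1 + t * y)
        = t ^ 2 * y ^ 2 * (1 - t) / ((1 + y) * (1 + t * y)) := by
      field_simp
      ring
    rw [this]
    have : 0 ≤ 1 - t := by linarith
    positivity

lemma phi_scale (r y : ℝ) (hr : 0 < r) (h1 : -1 < y) (h2 : y ≤ r) :
    y ^ 2 * ((r - log (1 + r)) / r ^ 2) ≤ y - log (1 + y) := by
  rcases le_total y 0 with h | h
  · have a1 := phi_ge_neg y h1 h
    have a2 := phi_le_pos r hr.le
    have a3 : (r - log (1 + r)) / r ^ 2 ≤ 1 / 2 := by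
      rw [div_le_iff₀ (by positivity)]
      linarith
    have a4 : y ^ 2 * ((r - log (1 + r)) / r ^ 2) ≤ y ^ 2 * (1 / 2) :=
      mul_le_mul_of_nonneg_left a3 (by positivity)
    linarith
  · have ht0 : 0 ≤ y / r := by positivity
    have ht1 : y / r ≤ 1 := by
      rw [div_le_one hr]
      exact h2
    have := f_mono (y / r) ht0 ht1 (a := 0) (b := r) (by simp) hr.le hr.le
    simp only [mul_zero, add_zero, log_one, sub_zero] at this
    have e : y / r * r = y := by field_simp
    rw [e] at this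
    have e2 : y ^ 2 * ((r - log (1 + r)) / r ^ 2)
        = y - (y / r * (1 - y / r) * r + (y / r) ^ 2 * log (1 + r)) := by
      field_simp
      ring
    rw [e2]
    linarith

lemma log_tan (x v : ℝ) (hx : 0 < x) (hv : 0 < v) : log x ≤ log v + (x - v) / v := by
  have h := Real.log_le_sub_one_of_pos (div_pos hx hv)
  rw [Real.log_div hx.ne' hv.ne'] at h
  have : (x - v) / v = x / v - 1 := by field_simp
  linarith

lemma phi_mono (r y : ℝ) (hr : 0 ≤ r) (h : r ≤ y) : r - log (1 + r) ≤ y - log (1 + y) := by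
  have h1 := log_tan (1 + y) (1 + r) (by linarith) (by linarith)
  have h2 : (1 + y - (1 + r)) / (1 + r) ≤ y - r := by
    rw [div_le_iff₀ (by linarith)]
    nlinarith
  linarith

lemma sum_phi {ι : Type} (s : Finset ι) (x : ι → ℝ) (hx : ∀ i ∈ s, 0 < x i) (r : ℝ) (hr : 0 ≤ r)
    (h : r ^ 2 ≤ ∑ i ∈ s, (x i - 1) ^ 2) :
    r - log (1 + r) ≤ ∑ i ∈ s, (x i - 1 - log (x i)) := by
  have hnn : ∀ i ∈ s, 0 ≤ x i - 1 - log (x i) := fun i hi => by
    have := Real.log_le_sub_one_of_pos (hx i hi)
    linarith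
  rcases hr.eq_or_lt with h0 | h0
  · subst h0
    simpa using Finset.sum_nonneg hnn
  by_cases hb : ∃ i ∈ s, r ≤ x i - 1
  · obtain ⟨i, hi, hb⟩ := hb
    have h1 := phi_mono r (x i - 1) hr hb
    have h2 : x i - 1 - log (x i) ≤ ∑ i ∈ s, (x i - 1 - log (x i)) :=
      Finset.single_le_sum (f := fun i => x i - 1 - log (x i)) hnn hi
    have e : 1 + (x i - 1) = x i := by ring
    rw [e] at h1
    linarith
  · push Not at hb
    have h1 : ∀ i ∈ s, (x i - 1) ^ 2 * ((r - log (1 + r)) / r ^ 2) ≤ x i - 1 - log (x i) := by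
      intro i hi
      have := phi_scale r (x i - 1) h0 (by linarith [hx i hi]) (hb i hi).le
      have e : 1 + (x i - 1) = x i := by ring
      rwa [e] at this
    have h2 := Finset.sum_le_sum h1
    rw [← Finset.sum_mul] at h2
    have h3 : 0 ≤ (r - log (1 + r)) / r ^ 2 := by
      have := Real.log_le_sub_one_of_pos (show 0 < 1 + r by linarith)
      apply div_nonneg (by linarith) (by positivity)
    have h4 := mul_le_mul_of_nonneg_right h h3
    have e : r ^ 2 * ((r - log (1 + r)) / r ^ 2) = r - log (1 + r) := by field_simp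
    linarith

lemma l4 : log 4 = 2 * log 2 := by
  rw [show (4 : ℝ) = 2 ^ 2 by norm_num, Real.log_pow]; norm_num
lemma l8 : log 8 = 3 * log 2 := by
  rw [show (8 : ℝ) = 2 ^ 3 by norm_num, Real.log_pow]; norm_num
lemma l9 : log 9 = 2 * log 3 := by
  rw [show (9 : ℝ) = 3 ^ 2 by norm_num, Real.log_pow]; norm_num
lemma l6 : log 6 = log 2 + log 3 := by
  rw [show (6 : ℝ) = 2 * 3 by norm_num, Real.log_mul] <;> norm_num

/-- the small case: `a = 2`, `b = 0`, `s < 1` -/
lemma num_small (d : ℕ) (hd : 1 ≤ d) (s : ℝ) (h0 : 0 ≤ s) (h1 : s ≤ 1)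
    (hq : 4 * (d : ℝ) + 4 ≤ s * (2 * d + s) * (d + 3)) :
    ∃ r : ℝ, 0 ≤ r ∧ r ^ 2 ≤ (d - 1) * (2 - s) + 2 * s ∧ log (d + s) ≤ r - log (1 + r) + s := by
  have t2 := Real.log_two_lt_d9
  have t3 := Real.log_three_lt_d9
  have t4 := l4
  have t6 := l6
  have t8 := l8
  have t9 := l9
  rcases le_or_gt 10 d with hb | hb
  · have hb' : (10 : ℝ) ≤ d := by exact_mod_cast hb
    set p := Real.sqrt (d + 1) with hp
    have hp2 : p ^ 2 = d + 1 := Real.sq_sqrt (by linarith)
    have hp0 : 0 ≤ p := Real.sqrt_nonneg _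
    have hp3 : 33 / 10 ≤ p := by nlinarith
    refine ⟨(1 - s) * (7 / 5 * p - 1 / 2) + s * p, by nlinarith, ?_, ?_⟩
    · have e1 : (7 / 5 * p - 1 / 2) ^ 2 ≤ 2 * p ^ 2 - 4 := by nlinarith
      have e2 : ((1 - s) * (7 / 5 * p - 1 / 2) + s * p) ^ 2
          ≤ (1 - s) * (7 / 5 * p - 1 / 2) ^ 2 + s * p ^ 2 := by
        have : 0 ≤ s * (1 - s) * (7 / 5 * p - 1 / 2 - p) ^ 2 := by
          have : 0 ≤ 1 - s := by linarith
          positivity
        nlinarith
      have e3 : (1 - s) * (7 / 5 * p - 1 / 2) ^ 2 ≤ (1 - s) * (2 * p ^ 2 - 4) :=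
        mul_le_mul_of_nonneg_left e1 (by linarith)
      have e4 : (d : ℝ) = p ^ 2 - 1 := by linarith
      rw [e4]
      nlinarith
    · have a1 := log_tan (1 + ((1 - s) * (7 / 5 * p - 1 / 2) + s * p)) 4 (by nlinarith)
        (by norm_num)
      have a2 : log (d + s) ≤ log (p ^ 2) := Real.log_le_log (by linarith) (by linarith)
      rw [Real.log_pow] at a2
      have a3 := log_tan p 3 (by linarith) (by norm_num)
      push_cast at a2
      have a4 : 0 ≤ (1 - s) * (p - 33 / 10) := mul_nonneg (by linarith) (by linarith)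
      nlinarith
  · interval_cases d
    · refine ⟨0, le_rfl, by push_cast; nlinarith, ?_⟩
      have := Real.log_le_sub_one_of_pos (show 0 < 1 + s by linarith)
      simp
      linarith
    · push_cast at *
      have hs : 1 / 2 ≤ s := by nlinarith
      refine ⟨3 / 2, by norm_num, by nlinarith, ?_⟩
      have a1 := log_tan (1 + 3 / 2) 3 (by norm_num) (by norm_num)
      have a2 := log_tan (2 + s) 3 (by linarith) (by norm_num)
      linarith
    · push_cast at *
      have hs : 41 / 100 ≤ s := by nlinarith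
      refine ⟨2, by norm_num, by nlinarith, ?_⟩
      have a2 := log_tan (3 + s) 3 (by linarith) (by norm_num)
      rw [show (1 : ℝ) + 2 = 3 by norm_num]
      linarith
    · push_cast at *
      have hs : 17 / 50 ≤ s := by nlinarith
      refine ⟨237 / 100 - 14 / 66 * (s - 17 / 50), by linarith, by nlinarith, ?_⟩
      have a1 := log_tan (1 + (237 / 100 - 14 / 66 * (s - 17 / 50))) 3 (by linarith) (by norm_num)
      have a2 := log_tan (4 + s) 4 (by linarith) (by norm_num)
      linarith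
    · push_cast at *
      have hs : 29 / 100 ≤ s := by nlinarith
      refine ⟨272 / 100 - 28 / 71 * (s - 29 / 100), by linarith, by nlinarith, ?_⟩
      have a1 := log_tan (1 + (272 / 100 - 28 / 71 * (s - 29 / 100))) 4 (by linarith) (by norm_num)
      have a2 := log_tan (5 + s) 6 (by linarith) (by norm_num)
      linarith
    · push_cast at *
      have hs : 1 / 4 ≤ s := by nlinarith
      refine ⟨304 / 100 - 40 / 75 * (s - 1 / 4), by linarith, by nlinarith, ?_⟩
      have a1 := log_tan (1 + (304 / 100 - 40 / 75 * (s - 1 / 4))) 4 (by linarith) (by norm_num)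
      have a2 := log_tan (6 + s) 6 (by linarith) (by norm_num)
      linarith
    · push_cast at *
      have hs : 11 / 50 ≤ s := by nlinarith
      refine ⟨333 / 100 - 51 / 78 * (s - 11 / 50), by linarith, by nlinarith, ?_⟩
      have a1 := log_tan (1 + (333 / 100 - 51 / 78 * (s - 11 / 50))) 4 (by linarith) (by norm_num)
      have a2 := log_tan (7 + s) 8 (by linarith) (by norm_num)
      linarith
    · push_cast at *
      have hs : 1 / 5 ≤ s := by nlinarith
      refine ⟨18 / 5 - 3 / 4 * (s - 1 / 5), by linarith, by nlinarith, ?_⟩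
      have a1 := log_tan (1 + (18 / 5 - 3 / 4 * (s - 1 / 5))) 4 (by linarith) (by norm_num)
      have a2 := log_tan (8 + s) 8 (by linarith) (by norm_num)
      linarith
    · push_cast at *
      have hs : 9 / 50 ≤ s := by nlinarith
      refine ⟨386 / 100 - 70 / 82 * (s - 9 / 50), by linarith, by nlinarith, ?_⟩
      have a1 := log_tan (1 + (386 / 100 - 70 / 82 * (s - 9 / 50))) 4 (by linarith) (by norm_num)
      have a2 := log_tan (9 + s) 9 (by linarith) (by norm_num)
      linarith

lemma num_main (d a b : ℕ) (hd : 1 ≤ d) (ha : 2 ≤ a) (s : ℝ) (h0 : 0 ≤ s)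
    (h1 : 2 * s ≤ (a : ℝ) - b)
    (hq : ((d : ℝ) + a) * d ^ 2 + (d + a - b) ^ 2 ≤ (d + a + 1) * (d + s) ^ 2) :
    ∃ r : ℝ, 0 ≤ r ∧ r ^ 2 ≤ (d - 1) * (a - s) + 2 * (s + b) ∧
      log (d + s) ≤ r - log (1 + r) + (s + b) := by
  have hd' : (1 : ℝ) ≤ d := by exact_mod_cast hd
  have ha' : (2 : ℝ) ≤ a := by exact_mod_cast ha
  have hb' : (0 : ℝ) ≤ b := Nat.cast_nonneg b
  rcases le_or_gt 1 (s + b) with hs | hs
  · set p := Real.sqrt (d + 1) with hp
    have hp2 : p ^ 2 = d + 1 := Real.sq_sqrt (by linarith)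
    have hp0 : 0 < p := Real.sqrt_pos.2 (by linarith)
    refine ⟨p, hp0.le, ?_, ?_⟩
    · have : (d - 1 : ℝ) * 1 ≤ (d - 1) * (a - s) :=
        mul_le_mul_of_nonneg_left (by linarith) (by linarith)
      linarith
    · have a0 : log (d + s) ≤ log (d + (s + b)) := Real.log_le_log (by linarith) (by linarith)
      have a1 := log_tan (d + (s + b)) (p ^ 2) (by linarith) (by positivity)
      have a2 : (d + (s + b) - p ^ 2) / p ^ 2 ≤ s + b - 1 := by
        rw [div_le_iff₀ (by positivity), hp2]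
        nlinarith
      rw [Real.log_pow] at a1
      push_cast at a1
      have a3 := log_tan p 3 hp0 (by norm_num)
      have a4 := log_tan (1 + p) 3 (by linarith) (by norm_num)
      have t3 := Real.log_three_lt_d9
      linarith
  · have hb0 : b = 0 := by
      have : (b : ℝ) < 1 := by linarith
      have : b < 1 := by exact_mod_cast this
      omega
    subst hb0
    simp only [Nat.cast_zero, add_zero, sub_zero] at *
    have hq2 : 4 * (d : ℝ) + 4 ≤ s * (2 * d + s) * (d + 3) := by
      by_contra hc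
      push Not at hc
      have hQ : s * (2 * d + s) < 4 := by
        by_contra h
        push Not at h
        nlinarith
      have e1 : (a : ℝ) * (2 * d + a) ≤ s * (2 * d + s) * (d + a + 1) := by nlinarith
      have e2 : s * (2 * d + s) * (a - 2) ≤ 4 * (a - 2) :=
        mul_le_mul_of_nonneg_right hQ.le (by linarith)
      have e3 : 0 ≤ ((a : ℝ) - 2) * (2 * d + a - 2) := mul_nonneg (by linarith) (by linarith)
      nlinarith
    obtain ⟨r, r0, r1, r2⟩ := num_small d hd s h0 hs.le hq2
    refine ⟨r, r0, ?_, r2⟩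
    have : (d - 1 : ℝ) * (2 - s) ≤ (d - 1) * (a - s) :=
      mul_le_mul_of_nonneg_left (by linarith) (by linarith)
    linarith

/-- The analytic core. -/
lemma core {ι : Type} (S : Finset ι) (x : ι → ℝ) (hx : ∀ i ∈ S, 0 < x i) (u : ℝ)
    (d a b : ℕ) (hd : 1 ≤ d) (ha : 2 ≤ a) (hN : S.card = d + a) (hu : (d : ℝ) ≤ u)
    (hprod : 1 ≤ u * ∏ i ∈ S, x i)
    (hsq : ((d : ℝ) + a) * d - (d - 1) * u ≤ ∑ i ∈ S, x i ^ 2)
    (hq : ((d : ℝ) + a) * d ^ 2 + (d + a - b) ^ 2 ≤ (d + a + 1) * u ^ 2)
    (hh : u ≤ ∑ i ∈ S, x i) :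
    ((d : ℝ) + a - b) + d ≤ u + ∑ i ∈ S, x i := by
  by_contra hc
  push Not at hc
  have hd' : (1 : ℝ) ≤ d := by exact_mod_cast hd
  obtain ⟨r, r0, r1, r2⟩ := num_main d a b hd ha (u - d) (by linarith) (by linarith)
    (by simpa using hq)
  have e1 : ∑ i ∈ S, (x i - 1) ^ 2 = ∑ i ∈ S, x i ^ 2 - 2 * ∑ i ∈ S, x i + (d + a) := by
    have : ∀ i ∈ S, (x i - 1) ^ 2 = x i ^ 2 - 2 * x i + 1 := fun i _ => by ring
    rw [Finset.sum_congr rfl this, Finset.sum_add_distrib, Finset.sum_sub_distrib,
      ← Finset.mul_sum]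
    simp [hN]
  have e2 : ∑ i ∈ S, (x i - 1 - log (x i)) = ∑ i ∈ S, x i - (d + a) - log (∏ i ∈ S, x i) := by
    rw [Finset.sum_sub_distrib, Finset.sum_sub_distrib, Real.log_prod (fun i hi => (hx i hi).ne')]
    simp [hN]
  have hp : 0 < ∏ i ∈ S, x i := Finset.prod_pos hx
  have e3 : 0 ≤ log u + log (∏ i ∈ S, x i) := by
    rw [← Real.log_mul (by linarith) hp.ne']
    exact Real.log_nonneg hprod
  have h := sum_phi S x hx r r0 (by rw [e1]; nlinarith)
  rw [e2] at h
  have e4 : (d : ℝ) + (u - d) = u := by ring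
  rw [e4] at r2
  linarith

end Pool.Agent.H72Z.En
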