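import Mathlib
import Pool.Agent.H72Z.EnA

set_option autoImplicit false

namespace Pool.Agent.H72Z.En

open Finset Matrix

section Spec

variable {V : Type} [Fintype V] [DecidableEq V] {A : Matrix V V ℝ}

lemma spec_decomp (hA : A.IsHermitian) :
    ∃ U : Matrix V V ℝ, U * Uᵀ = 1 ∧ Uᵀ * U = 1 ∧ A = U * diagonal hA.eigenvalues * Uᵀ := by
  refine ⟨(hA.eigenvectorUnitary : Matrix V V ℝ), ?_, ?_, ?_⟩
  · have := Unitary.coe_mul_star_self hA.eigenvectorUnitary
    simpa [Matrix.star_eq_conjTranspose] using this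
  · have := Unitary.coe_star_mul_self hA.eigenvectorUnitary
    simpa [Matrix.star_eq_conjTranspose] using this
  · have := hA.spectral_theorem
    simpa [Unitary.conjStarAlgAut_apply, Matrix.star_eq_conjTranspose] using this

lemma sum_sq_eig (hA : A.IsHermitian) : ∑ i, hA.eigenvalues i ^ 2 = (A * A).trace := by
  obtain ⟨U, h1, h2, h3⟩ := spec_decomp hA
  set D := diagonal hA.eigenvalues with hD
  have : A * A = U * (D * D) * Uᵀ := by
    conv_lhs => rw [h3]
    calc U * D * Uᵀ * (U * D * Uᵀ) = U * D * (Uᵀ * U) * D * Uᵀ := by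
          simp only [Matrix.mul_assoc]
      _ = U * (D * D) * Uᵀ := by rw [h2]; simp only [Matrix.mul_assoc, Matrix.mul_one]
  rw [this, Matrix.trace_mul_comm, ← Matrix.mul_assoc, h2, Matrix.one_mul, hD,
    Matrix.diagonal_mul_diagonal, Matrix.trace_diagonal]
  exact Finset.sum_congr rfl fun i _ => by ring

lemma norm_orth (U : Matrix V V ℝ) (h : Uᵀ * U = 1) (y : V → ℝ) :
    (U *ᵥ y) ⬝ᵥ (U *ᵥ y) = y ⬝ᵥ y := by
  rw [Matrix.dotProduct_mulVec, Matrix.vecMul_mulVec, h, Matrix.vecMul_one]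

lemma norm_mulVec_le (hA : A.IsHermitian) (u : ℝ) (hu : ∀ i, |hA.eigenvalues i| ≤ u)
    (y : V → ℝ) : (A *ᵥ y) ⬝ᵥ (A *ᵥ y) ≤ u ^ 2 * (y ⬝ᵥ y) := by
  obtain ⟨U, h1, h2, h3⟩ := spec_decomp hA
  have e1 : A *ᵥ y = U *ᵥ (diagonal hA.eigenvalues *ᵥ (Uᵀ *ᵥ y)) := by
    conv_lhs => rw [h3]
    simp only [Matrix.mulVec_mulVec, Matrix.mul_assoc]
  have e2 : (Uᵀ *ᵥ y) ⬝ᵥ (Uᵀ *ᵥ y) = y ⬝ᵥ y := norm_orth Uᵀ (by simpa using h1) y
  rw [e1, norm_orth U h2, ← e2]
  generalize Uᵀ *ᵥ y = z
  simp only [dotProduct, Matrix.mulVec_diagonal, Finset.mul_sum]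
  apply Finset.sum_le_sum
  intro i _
  have h4 : hA.eigenvalues i ^ 2 ≤ u ^ 2 := by
    rw [← sq_abs]
    exact pow_le_pow_left₀ (abs_nonneg _) (hu i) 2
  nlinarith [mul_self_nonneg (z i)]

end Spec

section Graph

variable {V : Type} [Fintype V] [DecidableEq V] (G : SimpleGraph V) [DecidableRel G.Adj]

lemma one_le_abs_det (h : (G.adjMatrix ℝ).det ≠ 0) : 1 ≤ |(G.adjMatrix ℝ).det| := by
  have e : (G.adjMatrix ℝ) = (G.adjMatrix ℤ).map (Int.castRingHom ℝ) := by
    ext i j
    simp only [SimpleGraph.adjMatrix_apply, Matrix.map_apply]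
    split_ifs <;> simp
  have e2 : (G.adjMatrix ℝ).det = ((G.adjMatrix ℤ).det : ℝ) := by
    rw [e]
    exact ((Int.castRingHom ℝ).map_det (G.adjMatrix ℤ)).symm
  rw [e2] at h ⊢
  have : (G.adjMatrix ℤ).det ≠ 0 := by exact_mod_cast h
  have := Int.one_le_abs this
  exact_mod_cast this

lemma trace_sq : (G.adjMatrix ℝ * G.adjMatrix ℝ).trace = ∑ v, (G.degree v : ℝ) := by
  simp only [Matrix.trace, Matrix.diag, SimpleGraph.adjMatrix_mul_self_apply_self]

lemma deg_pos (h : (G.adjMatrix ℝ).det ≠ 0) (v : V) : 1 ≤ G.degree v := by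
  by_contra hc
  have h0 : G.degree v = 0 := by omega
  apply h
  apply Matrix.det_eq_zero_of_row_eq_zero v
  intro j
  have : ¬ G.Adj v j := by
    intro hj
    have : 0 < G.degree v := (G.degree_pos_iff_exists_adj v).2 ⟨j, hj⟩
    omega
  simp [this]

lemma twins (h : (G.adjMatrix ℝ).det ≠ 0) (v : V) (hv : G.degree v + 2 = Fintype.card V)
    (hall : ∀ w, G.degree v ≤ G.degree w) : False := by
  have key : ∀ x y : V, x ≠ y → ¬ G.Adj x y → Fintype.card V ≤ G.degree x + 2 →
      ∀ z, G.Adj x z ↔ (z ≠ x ∧ z ≠ y) := by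
    intro x y hxy hn hd z
    have hsub : G.neighborFinset x ⊆ (Finset.univ.erase x).erase y := by
      intro w hw
      rw [SimpleGraph.mem_neighborFinset] at hw
      simp only [Finset.mem_erase, Finset.mem_univ, and_true]
      exact ⟨fun e => hn (e ▸ hw), hw.ne'⟩
    have hcard : ((Finset.univ.erase x).erase y).card ≤ (G.neighborFinset x).card := by
      rw [Finset.card_erase_of_mem (by simp [hxy.symm]), Finset.card_erase_of_mem (by simp),
        Finset.card_univ, SimpleGraph.card_neighborFinset_eq_degree]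
      omega
    have heq := Finset.eq_of_subset_of_card_le hsub hcard
    rw [← SimpleGraph.mem_neighborFinset, heq]
    simp only [Finset.mem_erase, Finset.mem_univ, and_true]
    tauto
  have hex : ∃ w, w ≠ v ∧ ¬ G.Adj v w := by
    by_contra hc
    push Not at hc
    have hsub : Finset.univ.erase v ⊆ G.neighborFinset v := by
      intro w hw
      rw [SimpleGraph.mem_neighborFinset]
      exact hc w (Finset.mem_erase.1 hw).1
    have := Finset.card_le_card hsub
    rw [Finset.card_erase_of_mem (by simp), Finset.card_univ,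
      SimpleGraph.card_neighborFinset_eq_degree] at this
    omega
  obtain ⟨w, hw, hn⟩ := hex
  have k1 := key v w hw.symm hn (by omega)
  have k2 := key w v hw (fun e => hn e.symm) (by have := hall w; omega)
  apply h
  apply Matrix.det_zero_of_row_eq hw
  funext z
  simp only [SimpleGraph.adjMatrix_apply, k1 z, k2 z]
  congr 1
  exact propext (by tauto)

lemma row_bound (d : ℕ) (hd : ∀ w, d ≤ G.degree w) (v : V) :
    ∑ w ∈ G.neighborFinset v, ((G.degree w : ℝ) - d + 1)
      ≤ ∑ w, (G.degree w : ℝ) - (Fintype.card V - 1) * d := by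
  have h1 : ∑ w ∈ insert v (G.neighborFinset v), ((G.degree w : ℝ) - d)
      ≤ ∑ w, ((G.degree w : ℝ) - d) := by
    apply Finset.sum_le_sum_of_subset_of_nonneg (Finset.subset_univ _)
    intro w _ _
    have : (d : ℝ) ≤ G.degree w := by exact_mod_cast hd w
    linarith
  rw [Finset.sum_insert (by simp)] at h1
  rw [Finset.sum_add_distrib]
  simp only [Finset.sum_sub_distrib, Finset.sum_const, Finset.card_univ, nsmul_eq_mul,
    SimpleGraph.card_neighborFinset_eq_degree, mul_one] at h1 ⊢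
  linarith

lemma swap_nb (f g : V → ℝ) :
    ∑ v, f v * ∑ w ∈ G.neighborFinset v, g w = ∑ w, g w * ∑ v ∈ G.neighborFinset w, f v := by
  have e : ∀ (f g : V → ℝ), ∑ v, f v * ∑ w ∈ G.neighborFinset v, g w
      = ∑ v, ∑ w, if G.Adj v w then f v * g w else 0 := by
    intro f g
    apply Finset.sum_congr rfl
    intro v _
    rw [Finset.mul_sum, ← Finset.sum_filter]
    apply Finset.sum_congr
    · ext w; simp
    · intros; rfl
  rw [e, e, Finset.sum_comm]
  apply Finset.sum_congr rfl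
  intro v _
  apply Finset.sum_congr rfl
  intro w _
  simp only [G.adj_comm w v, mul_comm]

lemma hong (d : ℕ) (hd : ∀ w, d ≤ G.degree w) (x : V → ℝ) (μ : ℝ) (hx : x ≠ 0)
    (he : G.adjMatrix ℝ *ᵥ x = μ • x) :
    |μ| * (|μ| - d + 1) ≤ ∑ w, (G.degree w : ℝ) - (Fintype.card V - 1) * d := by
  have hy : ∀ v, |μ| * |x v| ≤ ∑ w ∈ G.neighborFinset v, |x w| := by
    intro v
    have := congrFun he v
    rw [SimpleGraph.adjMatrix_mulVec_apply] at this
    rw [← abs_mul, show μ * x v = (μ • x) v from rfl, ← this]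
    exact Finset.abs_sum_le_sum_abs _ _
  have hpos : 0 < ∑ v, |x v| := by
    obtain ⟨v, hv⟩ := Function.ne_iff.1 hx
    exact Finset.sum_pos' (fun i _ => abs_nonneg _) ⟨v, Finset.mem_univ _, abs_pos.2 hv⟩
  set B := ∑ w, (G.degree w : ℝ) - (Fintype.card V - 1) * d with hB
  have h1 : ∑ v, |x v| * ∑ w ∈ G.neighborFinset v, ((G.degree w : ℝ) - d + 1)
      ≤ (∑ v, |x v|) * B := by
    rw [Finset.sum_mul]
    exact Finset.sum_le_sum fun v _ =>
      mul_le_mul_of_nonneg_left (row_bound G d hd v) (abs_nonneg _)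
  rw [swap_nb] at h1
  have h2 : ∑ w, ((G.degree w : ℝ) - d + 1) * (|μ| * |x w|)
      ≤ ∑ w, ((G.degree w : ℝ) - d + 1) * ∑ v ∈ G.neighborFinset w, |x v| := by
    apply Finset.sum_le_sum
    intro w _
    have : (d : ℝ) ≤ G.degree w := by exact_mod_cast hd w
    exact mul_le_mul_of_nonneg_left (hy w) (by linarith)
  have h3 : |μ| * ∑ v, |x v| ≤ ∑ w, |x w| * (G.degree w : ℝ) := by
    have e := swap_nb G (fun v => |x v|) (fun _ => 1)
    simp only [Finset.sum_const, SimpleGraph.card_neighborFinset_eq_degree, nsmul_eq_mul,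
      mul_one, one_mul] at e
    rw [e, Finset.mul_sum]
    exact Finset.sum_le_sum fun v _ => hy v
  have h4 : ∑ w, ((G.degree w : ℝ) - d + 1) * (|μ| * |x w|)
      = |μ| * (∑ w, |x w| * (G.degree w : ℝ) + (1 - d) * ∑ v, |x v|) := by
    rw [Finset.mul_sum, ← Finset.sum_add_distrib, Finset.mul_sum]
    exact Finset.sum_congr rfl fun w _ => by ring
  have h5 : |μ| * (|μ| * ∑ v, |x v| + (1 - d) * ∑ v, |x v|)
      ≤ |μ| * (∑ w, |x w| * (G.degree w : ℝ) + (1 - d) * ∑ v, |x v|) :=
    mul_le_mul_of_nonneg_left (by linarith) (abs_nonneg _)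
  have h6 : (∑ v, |x v|) * (|μ| * (|μ| - d + 1)) ≤ (∑ v, |x v|) * B := by nlinarith
  exact le_of_mul_le_mul_left h6 hpos

theorem energy_ge (hA : (G.adjMatrix ℝ).IsHermitian) (h : (G.adjMatrix ℝ).det ≠ 0) :
    ((G.maxDegree + G.minDegree : ℕ) : ℝ) ≤ ∑ i, |hA.eigenvalues i| := by
  rcases isEmpty_or_nonempty V with hV | hV
  · simp
  obtain ⟨i0, -, hi0⟩ := Finset.exists_max_image Finset.univ (fun i => |hA.eigenvalues i|)
    Finset.univ_nonempty
  set u := |hA.eigenvalues i0| with hu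
  have hle : ∀ i, |hA.eigenvalues i| ≤ u := fun i => hi0 i (Finset.mem_univ _)
  obtain ⟨vm, hvm⟩ := G.exists_minimal_degree_vertex
  obtain ⟨vM, hvM⟩ := G.exists_maximal_degree_vertex
  set d := G.minDegree with hd
  set D := G.maxDegree with hD
  have hdw : ∀ w, d ≤ G.degree w := G.minDegree_le_degree
  have hDn : D < Fintype.card V := G.maxDegree_lt_card_verts
  have hdD : d ≤ D := G.minDegree_le_maxDegree
  have hd1 : 1 ≤ d := hvm ▸ deg_pos G h vm
  set S := Finset.univ.erase i0 with hS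
  have hsplit : ∀ f : V → ℝ, ∑ i, f i = f i0 + ∑ i ∈ S, f i := fun f =>
    (Finset.add_sum_erase _ f (Finset.mem_univ i0)).symm
  have hhalf : u ≤ ∑ i ∈ S, |hA.eigenvalues i| := by
    have t := hA.trace_eq_sum_eigenvalues
    rw [SimpleGraph.trace_adjMatrix] at t
    simp only [RCLike.ofReal_real_eq_id, id] at t
    rw [hsplit] at t
    have : hA.eigenvalues i0 = -∑ i ∈ S, hA.eigenvalues i := by linarith
    rw [hu, this, abs_neg]
    exact Finset.abs_sum_le_sum_abs _ _
  have hq : ((Fintype.card V : ℝ) - 1) * d ^ 2 + D ^ 2 ≤ Fintype.card V * u ^ 2 := by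
    have t := norm_mulVec_le hA u hle (fun _ => 1)
    simp only [dotProduct, SimpleGraph.adjMatrix_mulVec_apply, Finset.sum_const,
      SimpleGraph.card_neighborFinset_eq_degree, nsmul_eq_mul, mul_one, Finset.card_univ] at t
    have t2 : ∑ w, ((G.degree w : ℝ) * G.degree w - d ^ 2)
        ≥ (G.degree vM : ℝ) * G.degree vM - d ^ 2 := by
      apply Finset.single_le_sum (f := fun w => (G.degree w : ℝ) * G.degree w - d ^ 2)
        _ (Finset.mem_univ vM)
      intro w _
      have : (d : ℝ) ≤ G.degree w := by exact_mod_cast hdw w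
      have h0 : (0 : ℝ) ≤ d := Nat.cast_nonneg d
      nlinarith
    simp only [Finset.sum_sub_distrib, Finset.sum_const, Finset.card_univ, nsmul_eq_mul] at t2
    rw [← hvM] at t2
    nlinarith
  have hn1 : (1 : ℝ) ≤ Fintype.card V := by
    have : 1 ≤ Fintype.card V := by omega
    exact_mod_cast this
  have hdD' : (d : ℝ) ≤ D := by exact_mod_cast hdD
  have hd0 : (0 : ℝ) ≤ d := Nat.cast_nonneg d
  have hu0 : 0 ≤ u := abs_nonneg _
  have hud : (d : ℝ) ≤ u := by
    have : (Fintype.card V : ℝ) * d ^ 2 ≤ Fintype.card V * u ^ 2 := by nlinarith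
    have := le_of_mul_le_mul_left this (by linarith)
    exact (pow_le_pow_iff_left₀ hd0 hu0 (by norm_num)).1 this
  rw [hsplit, ← hu]
  push_cast
  by_cases hreg : D = d
  · rw [hreg]
    linarith
  have hne : d + 2 ≠ Fintype.card V := by
    intro e
    exact twins G h vm (hvm ▸ e) (fun w => hvm ▸ hdw w)
  obtain ⟨a, ha⟩ : ∃ a, Fintype.card V = d + a + 1 := ⟨Fintype.card V - d - 1, by omega⟩
  obtain ⟨b, hb⟩ : ∃ b, d + a = D + b := ⟨d + a - D, by omega⟩
  have hb' : (D : ℝ) = d + a - b := by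
    have : (d : ℝ) + a = D + b := by exact_mod_cast hb
    linarith
  have ha' : (Fintype.card V : ℝ) = d + a + 1 := by exact_mod_cast ha
  have hdet := hA.det_eq_prod_eigenvalues
  simp only [RCLike.ofReal_real_eq_id, id] at hdet
  have hx : ∀ i ∈ S, 0 < |hA.eigenvalues i| := by
    intro i _
    rw [abs_pos]
    intro e
    apply h
    rw [hdet]
    exact Finset.prod_eq_zero (Finset.mem_univ i) e
  have hprod : 1 ≤ u * ∏ i ∈ S, |hA.eigenvalues i| := by
    have := one_le_abs_det G h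
    rw [hdet, Finset.abs_prod, ← Finset.mul_prod_erase _ _ (Finset.mem_univ i0)] at this
    exact this
  have hsq : ((d : ℝ) + a) * d - (d - 1) * u ≤ ∑ i ∈ S, |hA.eigenvalues i| ^ 2 := by
    have t := sum_sq_eig hA
    rw [trace_sq, hsplit] at t
    have t2 := hong G d hdw _ _
      ((WithLp.ofLp_eq_zero 2).ne.2 <| hA.eigenvectorBasis.orthonormal.ne_zero i0)
      (hA.mulVec_eigenvectorBasis i0)
    rw [← hu, ← t, ha'] at t2
    simp only [sq_abs]
    have e : hA.eigenvalues i0 ^ 2 = u ^ 2 := (sq_abs _).symm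
    rw [e] at t2
    nlinarith
  have := core S (fun i => |hA.eigenvalues i|) hx u d a b hd1 (by omega)
    (by rw [hS, Finset.card_erase_of_mem (Finset.mem_univ _), Finset.card_univ]; omega)
    hud hprod hsq (by rw [← hb', ← ha']; rw [ha'] at hq ⊢; linarith) hhalf
  rw [hb']
  exact this

end Graph

end Pool.Agent.H72Z.En
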