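import Mathlib

set_option autoImplicit false

/-! Second symbolic defects of facet ideals of skeleta of independence complexes. -/

namespace Pool.Agent.H72Z.Sdef

open MvPolynomial

variable {K : Type*} [Field K] {V : Type*} [DecidableEq V]

noncomputable def ind (F : Finset V) : V →₀ ℕ := ∑ v ∈ F, Finsupp.single v 1

lemma ind_apply (F : Finset V) (v : V) : ind F v = if v ∈ F then 1 else 0 := by
  simp [ind, Finsupp.finsetSum_apply, Finsupp.single_apply]

omit [DecidableEq V] in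
lemma prod_X (F : Finset V) : (∏ v ∈ F, X v : MvPolynomial V K) = monomial (ind F) 1 := by
  rw [ind, monomial_sum_one]
  rfl

omit [DecidableEq V] in
lemma degree_ind (F : Finset V) : Finsupp.degree (ind F) = F.card := by
  simp [ind, map_sum]

lemma ind_le {F : Finset V} {u : V →₀ ℕ} : ind F ≤ u ↔ ∀ v ∈ F, u v ≠ 0 := by
  rw [Finsupp.le_def]
  refine forall_congr' fun v => ?_
  rw [ind_apply]
  split_ifs with h <;> simp [h, Nat.one_le_iff_ne_zero]

lemma ind_inj : Function.Injective (ind : Finset V → V →₀ ℕ) := by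
  intro F F' h
  ext v
  have := DFunLike.congr_fun h v
  rw [ind_apply, ind_apply] at this
  by_cases h1 : v ∈ F <;> by_cases h2 : v ∈ F' <;> simp_all

variable (K) in
/-- monomial ideal -/
noncomputable def MI (s : Set (V →₀ ℕ)) : Ideal (MvPolynomial V K) :=
  Ideal.span ((fun u => monomial u (1 : K)) '' s)

omit [DecidableEq V] in
lemma mem_MI {s : Set (V →₀ ℕ)} {p : MvPolynomial V K} :
    p ∈ MI K s ↔ ∀ u ∈ p.support, ∃ a ∈ s, a ≤ u := mem_ideal_span_monomial_image

omit [DecidableEq V] in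
lemma mem_MI_sq {s : Set (V →₀ ℕ)} {p : MvPolynomial V K} :
    p ∈ MI K s ^ 2 ↔ ∀ u ∈ p.support, ∃ a ∈ s, ∃ b ∈ s, a + b ≤ u := by
  have : MI K s ^ 2 = MI K {c | ∃ a ∈ s, ∃ b ∈ s, a + b = c} := by
    rw [sq, MI, MI, Ideal.span_mul_span']
    congr 1
    ext q
    constructor
    · rintro ⟨_, ⟨a, ha, rfl⟩, _, ⟨b, hb, rfl⟩, rfl⟩
      exact ⟨a + b, ⟨a, ha, b, hb, rfl⟩, by simp [monomial_mul]⟩
    · rintro ⟨_, ⟨a, ha, b, hb, rfl⟩, rfl⟩
      exact ⟨_, ⟨a, ha, rfl⟩, _, ⟨b, hb, rfl⟩, by simp [monomial_mul]⟩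
  rw [this, mem_MI]
  refine forall₂_congr fun u _ => ⟨?_, ?_⟩
  · rintro ⟨_, ⟨a, ha, b, hb, rfl⟩, h⟩
    exact ⟨a, ha, b, hb, h⟩
  · rintro ⟨a, ha, b, hb, h⟩
    exact ⟨_, ⟨a, ha, b, hb, rfl⟩, h⟩

omit [DecidableEq V] in
lemma prime_vars (C : Set V) : (MI K ((fun v => Finsupp.single v 1) '' C)).IsPrime := by
  classical
  set P := MI K ((fun v => Finsupp.single v 1) '' C) with hP
  let φ : MvPolynomial V K →ₐ[K] MvPolynomial V K := aeval fun v => if v ∈ C then 0 else X v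
  have h1 : (Ideal.Quotient.mkₐ K P).comp φ = Ideal.Quotient.mkₐ K P := by
    ext v
    simp only [φ, AlgHom.comp_apply, aeval_X, Ideal.Quotient.mkₐ_eq_mk]
    split_ifs with h
    · rw [map_zero, eq_comm, Ideal.Quotient.eq_zero_iff_mem]
      exact Ideal.subset_span ⟨_, ⟨v, h, rfl⟩, rfl⟩
    · rfl
  have : P = RingHom.ker φ := by
    apply le_antisymm
    · rw [hP, MI, Ideal.span_le]
      rintro _ ⟨_, ⟨v, hv, rfl⟩, rfl⟩
      change φ (X v) = 0
      simp [φ, hv]
    · intro p hp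
      have := DFunLike.congr_fun h1 p
      rw [AlgHom.comp_apply, RingHom.mem_ker.1 hp, map_zero, Ideal.Quotient.mkₐ_eq_mk] at this
      exact Ideal.Quotient.eq_zero_iff_mem.1 this.symm
  rw [this]
  exact RingHom.ker_isPrime _

lemma sym_supp {𝓕 : Set (Finset V)} {p : MvPolynomial V K}
    (hp : p ∈ ⨅ P ∈ (MI K (ind '' 𝓕)).minimalPrimes, P ^ 2) {u : V →₀ ℕ} (hu : u ∈ p.support)
    (C : Set V) (hC : ∀ F ∈ 𝓕, ∃ v ∈ F, v ∈ C) :
    ∃ a ∈ C, ∃ b ∈ C, Finsupp.single a 1 + Finsupp.single b 1 ≤ u := by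
  have hle : MI K (ind '' 𝓕) ≤ MI K ((fun v => Finsupp.single v 1) '' C) := by
    intro q hq
    rw [mem_MI] at hq ⊢
    intro w hw
    obtain ⟨_, ⟨F, hF, rfl⟩, h⟩ := hq w hw
    obtain ⟨v, hv, hvC⟩ := hC F hF
    refine ⟨_, ⟨v, hvC, rfl⟩, ?_⟩
    rw [Finsupp.single_le_iff, Nat.one_le_iff_ne_zero]
    exact ind_le.1 h v hv
  have := prime_vars (K := K) C
  obtain ⟨P, hP, hPle⟩ := Ideal.exists_minimalPrimes_le hle
  have h1 : p ∈ P ^ 2 := (Submodule.mem_iInf _).1 ((Submodule.mem_iInf _).1 hp P) hP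
  obtain ⟨_, ⟨a, ha, rfl⟩, _, ⟨b, hb, rfl⟩, h⟩ := mem_MI_sq.1 (Ideal.pow_right_mono hPle 2 h1) u hu
  exact ⟨a, ha, b, hb, h⟩

lemma mem_sym {𝓕 : Set (Finset V)} {H : Finset V} (hne : H.Nonempty)
    (hH : ∀ v ∈ H, H.erase v ∈ 𝓕) :
    (monomial (ind H) 1 : MvPolynomial V K) ∈ ⨅ P ∈ (MI K (ind '' 𝓕)).minimalPrimes, P ^ 2 := by
  refine (Submodule.mem_iInf _).2 fun P => (Submodule.mem_iInf _).2 fun hP => ?_
  have hpr : P.IsPrime := hP.1.1
  have key : ∀ v ∈ H, ∃ a ∈ H.erase v, (X a : MvPolynomial V K) ∈ P := by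
    intro v hv
    rw [← Ideal.IsPrime.prod_mem_iff, prod_X]
    exact hP.1.2 (Ideal.subset_span ⟨_, ⟨_, hH v hv, rfl⟩, rfl⟩)
  obtain ⟨v, hv⟩ := hne
  obtain ⟨a, ha, haP⟩ := key v hv
  have ha' := Finset.mem_of_mem_erase ha
  obtain ⟨b, hb, hbP⟩ := key a ha'
  rw [← prod_X, ← Finset.mul_prod_erase _ _ ha', ← Finset.mul_prod_erase _ _ hb, ← mul_assoc, sq]
  exact Ideal.mul_mem_right _ _ (Ideal.mul_mem_mul haP hbP)

/-- two maximum independent sets whose intersection lies in every maximum independent set -/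
lemma core_two {G : SimpleGraph V} (hG : G.Colorable 2) (W : Finset V) (k : ℕ)
    (h1 : ∃ F ⊆ W, G.IsNIndepSet k F) (h2 : ∀ H ⊆ W, ¬ G.IsNIndepSet (k + 1) H) :
    ∃ F₁ ⊆ W, ∃ F₂ ⊆ W, G.IsNIndepSet k F₁ ∧ G.IsNIndepSet k F₂ ∧
      ∀ F ⊆ W, G.IsNIndepSet k F → F₁ ∩ F₂ ⊆ F := by
  classical
  obtain ⟨c⟩ := hG
  have hmax : ∀ H ⊆ W, G.IsIndepSet H → H.card ≤ k := by
    intro H hH hi
    by_contra h
    obtain ⟨H', hH', hc⟩ := Finset.exists_subset_card_eq (s := H) (n := k + 1) (by omega)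
    exact h2 H' (hH'.trans hH) ⟨hi.mono (by exact_mod_cast hH'), hc⟩
  have two : ∀ i j l : Fin 2, i ≠ l → j ≠ l → i = j := by decide
  have key : ∀ i : Fin 2, ∃ F₁ ⊆ W, G.IsNIndepSet k F₁ ∧
      ∀ F ⊆ W, G.IsNIndepSet k F → ∀ v ∈ F₁, c v = i → v ∈ F := by
    intro i
    obtain ⟨F₁, hF₁, hmin⟩ := (W.powerset.filter (G.IsNIndepSet k)).exists_min_image
      (fun F => (F.filter fun v => c v = i).card) (by
        obtain ⟨F, hF, h⟩ := h1
        exact ⟨F, by simp [hF, h]⟩)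
    simp only [Finset.mem_filter, Finset.mem_powerset] at hF₁ hmin
    refine ⟨F₁, hF₁.1, hF₁.2, fun F hF hi v hv hc => ?_⟩
    by_contra hvF
    have indep : ∀ (P : V → Prop) [DecidablePred P], (∀ a b, G.Adj a b → P a → ¬ P b) →
        (∀ a b, G.Adj a b → ¬ P a → P b) →
        G.IsIndepSet ((F₁ ∩ F).filter P ∪ (F₁ ∪ F).filter (fun v => ¬ P v) : Finset V) := by
      intro P _ p1 p2 a ha b hb _ hab
      simp only [Finset.coe_union, Finset.coe_filter, Set.mem_union, Set.mem_ofPred_eq,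
        Finset.mem_inter, Finset.mem_union] at ha hb
      rcases ha with ⟨ha, pa⟩ | ⟨ha, pa⟩ <;> rcases hb with ⟨hb, pb⟩ | ⟨hb, pb⟩
      · exact p1 a b hab pa pb
      · rcases hb with hb | hb
        · exact hF₁.2.1 ha.1 hb hab.ne hab
        · exact hi.1 ha.2 hb hab.ne hab
      · rcases ha with ha | ha
        · exact hF₁.2.1 ha hb.1 hab.ne hab
        · exact hi.1 ha hb.2 hab.ne hab
      · exact pb (p2 a b hab pa)
    have q1 : ∀ a b, G.Adj a b → c a = i → ¬ c b = i := fun a b h ha hb =>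
      c.valid h (ha.trans hb.symm)
    have q2 : ∀ a b, G.Adj a b → ¬ c a = i → c b = i := fun a b h ha => by
      by_contra hb
      exact c.valid h (two _ _ _ ha hb)
    have sub : ∀ (P : V → Prop) [DecidablePred P],
        (F₁ ∩ F).filter P ∪ (F₁ ∪ F).filter (fun v => ¬ P v) ⊆ W :=
      fun P _ => Finset.union_subset
        ((Finset.filter_subset _ _).trans (Finset.inter_subset_left.trans hF₁.1))
        ((Finset.filter_subset _ _).trans (Finset.union_subset hF₁.1 hF))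
    have cd : ∀ (P : V → Prop) [DecidablePred P],
        ((F₁ ∩ F).filter P ∪ (F₁ ∪ F).filter (fun v => ¬ P v)).card
        = ((F₁ ∩ F).filter P).card + ((F₁ ∪ F).filter (fun v => ¬ P v)).card :=
      fun P _ => Finset.card_union_of_disjoint (Finset.disjoint_left.2 fun a ha hb =>
        (Finset.mem_filter.1 hb).2 (Finset.mem_filter.1 ha).2)
    have i1 := indep (fun v => c v = i) q1 q2
    have i2 := indep (fun v => ¬ c v = i) (fun a b h ha hb => hb (q2 a b h ha))
      (fun a b h ha => q1 a b h (not_not.1 ha))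
    have m1 := hmax _ (sub _) i1
    have m2 := hmax _ (sub _) i2
    have c1 := cd (fun v => c v = i)
    have c2 := cd (fun v => ¬ c v = i)
    have s1 := Finset.card_filter_add_card_filter_not (s := F₁ ∩ F) (fun v => c v = i)
    have s2 := Finset.card_filter_add_card_filter_not (s := F₁ ∪ F) (fun v => ¬ c v = i)
    have s3 := Finset.card_union_add_card_inter F₁ F
    rw [hF₁.2.2, hi.2] at s3
    have h3 := hmin _ ⟨sub _, i1, by omega⟩
    have h4 : ((F₁ ∩ F).filter (fun v => c v = i) ∪ (F₁ ∪ F).filter (fun v => ¬ c v = i)).filter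
        (fun v => c v = i) ⊂ F₁.filter fun v => c v = i := by
      refine (Finset.ssubset_iff_of_subset ?_).2 ⟨v, by simp [hv, hc], by simp [hvF, hc]⟩
      intro a ha
      simp only [Finset.mem_filter, Finset.mem_union, Finset.mem_inter] at ha ⊢
      tauto
    have := Finset.card_lt_card h4
    omega
  obtain ⟨F₁, a1, b1, c1⟩ := key 0
  obtain ⟨F₂, a2, b2, c2⟩ := key 1
  refine ⟨F₁, a1, F₂, a2, b1, b2, fun F hF hi v hv => ?_⟩
  rw [Finset.mem_inter] at hv
  by_cases h : c v = 0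
  · exact c1 F hF hi v hv.1 h
  · exact c2 F hF hi v hv.2 (two _ _ 0 h (by decide))

lemma comb {G : SimpleGraph V} (hG : G.Colorable 2) (k : ℕ) (u : V →₀ ℕ)
    (h : ∀ C : Set V, (∀ F, G.IsNIndepSet k F → ∃ v ∈ F, v ∈ C) →
      ∃ a ∈ C, ∃ b ∈ C, Finsupp.single a 1 + Finsupp.single b 1 ≤ u) :
    (∃ H, G.IsNIndepSet (k + 1) H ∧ ind H ≤ u) ∨
      ∃ F₁ F₂, G.IsNIndepSet k F₁ ∧ G.IsNIndepSet k F₂ ∧ ind F₁ + ind F₂ ≤ u := by
  have hs : ∀ F : Finset V, F ⊆ u.support ↔ ind F ≤ u := fun F => by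
    rw [ind_le]
    simp [Finset.subset_iff]
  by_cases h2 : ∃ H, G.IsNIndepSet (k + 1) H ∧ ind H ≤ u
  · exact Or.inl h2
  right
  have h1 : ∃ F ⊆ u.support, G.IsNIndepSet k F := by
    by_contra h1
    push Not at h1
    obtain ⟨a, ha, b, -, hab⟩ := h {v | u v = 0} fun F hF => by
      by_contra h3
      push Not at h3
      exact h1 F (fun v hv => Finsupp.mem_support_iff.2 (h3 v hv)) hF
    have := hab a
    have ha' : u a = 0 := ha
    simp [ha'] at this
  obtain ⟨F₁, a1, F₂, a2, b1, b2, hc⟩ := core_two hG u.support k h1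
    fun H hH hi => h2 ⟨H, hi, (hs H).1 hH⟩
  refine ⟨F₁, F₂, b1, b2, fun v => ?_⟩
  rw [Finsupp.add_apply, ind_apply, ind_apply]
  have e1 := fun hv => Finsupp.mem_support_iff.1 (a1 (x := v) hv)
  have e2 := fun hv => Finsupp.mem_support_iff.1 (a2 (x := v) hv)
  by_cases h1 : v ∈ F₁ <;> by_cases h2 : v ∈ F₂ <;> simp only [h1, h2, if_true, if_false]
  · by_contra h3
    obtain ⟨a, ha, b, hb, hab⟩ := h {w | u w = 0 ∨ w = v} fun F hF => by
      by_contra h4
      push Not at h4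
      simp only [Set.mem_ofPred_eq, not_or] at h4
      exact (h4 v (hc F (fun w hw => Finsupp.mem_support_iff.2 (h4 w hw).1) hF
        (Finset.mem_inter.2 ⟨h1, h2⟩))).2 rfl
    have ta := hab a
    have tb := hab b
    rcases ha with ha | rfl
    · simp [ha] at ta
    rcases hb with hb | rfl
    · simp [hb] at tb
    · simp at ta
      omega
  · have := e1 h1
    omega
  · have := e2 h2
    omega
  · omega

theorem main [Fintype V] {G : SimpleGraph V} (hG : G.Colorable 2) (k : ℕ) (hk : 2 ≤ k) :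
    (Submodule.map (Submodule.mkQ (MI K (ind '' {F | G.IsNIndepSet k F}) ^ 2))
      (⨅ P ∈ (MI K (ind '' {F | G.IsNIndepSet k F})).minimalPrimes, P ^ 2)).spanFinrank
      = {H : Finset V | G.IsNIndepSet (k + 1) H}.ncard := by
  set I := MI K (ind '' {F | G.IsNIndepSet k F}) with hI
  set J := ⨅ P ∈ I.minimalPrimes, P ^ 2 with hJ
  set 𝓗 := {H : Finset V | G.IsNIndepSet (k + 1) H} with h𝓗
  have hsupp : ∀ p ∈ J, ∀ u ∈ p.support, (∃ H ∈ 𝓗, ind H ≤ u) ∨
      ∃ F₁ F₂, G.IsNIndepSet k F₁ ∧ G.IsNIndepSet k F₂ ∧ ind F₁ + ind F₂ ≤ u :=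
    fun p hp u hu => comb hG k u fun C hC => sym_supp hp hu C hC
  have hmon : ∀ H ∈ 𝓗, (monomial (ind H) 1 : MvPolynomial V K) ∈ J := by
    intro H hH
    refine mem_sym (Finset.card_pos.1 (by rw [hH.2]; omega)) fun v hv => ⟨?_, ?_⟩
    · exact hH.1.mono (by exact_mod_cast Finset.erase_subset v H)
    · rw [Finset.card_erase_of_mem hv, hH.2]
      rfl
  have hM : Submodule.map (Submodule.mkQ (I ^ 2)) J =
      Submodule.span _ ((fun H => Submodule.mkQ (I ^ 2) (monomial (ind H) 1)) '' 𝓗) := by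
    apply le_antisymm
    · rintro _ ⟨p, hp, rfl⟩
      rw [p.as_sum, map_sum]
      refine Submodule.sum_mem _ fun u hu => ?_
      rcases hsupp p hp u hu with ⟨H, hH, h⟩ | ⟨F₁, F₂, h1, h2, h⟩
      · obtain ⟨w, rfl⟩ := le_iff_exists_add'.1 h
        have : (monomial (w + ind H) (coeff (w + ind H) p) : MvPolynomial V K)
            = monomial w (coeff (w + ind H) p) • monomial (ind H) 1 := by
          rw [smul_eq_mul, monomial_mul, mul_one]
        rw [this, map_smul]
        exact Submodule.smul_mem _ _ (Submodule.subset_span ⟨H, hH, rfl⟩)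
      · have : (monomial u (coeff u p) : MvPolynomial V K) ∈ I ^ 2 := by
          rw [mem_MI_sq]
          intro w hw
          rw [Finset.mem_singleton.1 (support_monomial_subset hw)]
          exact ⟨_, ⟨F₁, h1, rfl⟩, _, ⟨F₂, h2, rfl⟩, h⟩
        rw [Submodule.mkQ_apply, (Submodule.Quotient.mk_eq_zero _).2 this]
        exact Submodule.zero_mem _
    · rw [Submodule.span_le]
      rintro _ ⟨H, hH, rfl⟩
      exact ⟨_, hmon H hH, rfl⟩
  have hfin : 𝓗.Finite := Set.toFinite _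
  apply le_antisymm
  · rw [hM]
    exact (Submodule.spanFinrank_span_le_ncard_of_finite (hfin.image _)).trans
      (Set.ncard_image_le hfin)
  have hfg : (Submodule.map (Submodule.mkQ (I ^ 2)) J).FG := by
    rw [hM]
    exact Submodule.fg_span (hfin.image _)
  let φ : MvPolynomial V K →+ (𝓗 → K) :=
    { toFun := fun p H => coeff (ind H.1) p
      map_zero' := by funext H; simp
      map_add' := fun p q => by funext H; simp }
  have hφ : ∀ p ∈ (I ^ 2).toAddSubgroup, φ p = 0 := by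
    intro p hp
    funext H
    by_contra h
    obtain ⟨_, ⟨F₁, h1, rfl⟩, _, ⟨F₂, h2, rfl⟩, h3⟩ := mem_MI_sq.1 hp _ (mem_support_iff.2 h)
    have := Finsupp.degree_mono h3
    rw [map_add, degree_ind, degree_ind, degree_ind, h1.2, h2.2, H.2.2] at this
    omega
  let ψ : (MvPolynomial V K ⧸ I ^ 2) →+ (𝓗 → K) := QuotientAddGroup.lift _ φ hφ
  have hψ : ∀ p, ψ (Submodule.mkQ (I ^ 2) p) = φ p := fun _ => rfl
  have hsm : ∀ s, ∀ p ∈ J, φ (s * p) = constantCoeff s • φ p := by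
    intro s p hp
    funext H
    change coeff (ind H.1) (s * p) = constantCoeff s * coeff (ind H.1) p
    rw [coeff_mul, Finset.sum_eq_single (0, ind H.1)]
    · rfl
    · rintro ⟨a, b⟩ hab hne
      rw [Finset.HasAntidiagonal.mem_antidiagonal] at hab
      simp only at hab ⊢
      by_contra h
      have hb : b ∈ p.support := mem_support_iff.2 (right_ne_zero_of_mul h)
      have hd := congrArg Finsupp.degree hab
      rw [map_add, degree_ind, H.2.2] at hd
      have ha : Finsupp.degree a ≠ 0 := by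
        intro h0
        rw [Finsupp.degree_eq_zero_iff] at h0
        subst h0
        rw [zero_add] at hab
        exact hne (by rw [hab])
      rcases hsupp p hp b hb with ⟨H', hH', h⟩ | ⟨F₁, F₂, h1, h2, h⟩
      · have := Finsupp.degree_mono h
        rw [degree_ind, hH'.2] at this
        omega
      · have := Finsupp.degree_mono h
        rw [map_add, degree_ind, degree_ind, h1.2, h2.2] at this
        omega
    · intro h
      simp at h
  let f : Submodule.map (Submodule.mkQ (I ^ 2)) J →ₛₗ[(constantCoeff : MvPolynomial V K →+* K)]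
      (𝓗 → K) :=
    { toFun := fun x => ψ x.1
      map_add' := fun x y => by simp
      map_smul' := by
        rintro s ⟨_, p, hp, rfl⟩
        change ψ (s • Submodule.mkQ (I ^ 2) p) = _
        rw [← map_smul, hψ, hψ, smul_eq_mul, hsm s p hp] }
  have : RingHomSurjective (constantCoeff : MvPolynomial V K →+* K) :=
    ⟨fun c => ⟨C c, by simp⟩⟩
  have h1 := Submodule.spanFinrank_map_le_of_fg f (p := ⊤) ((Submodule.fg_top _).2 hfg)
  rw [Submodule.spanFinrank_top] at h1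
  have h2 : Submodule.map f ⊤ = ⊤ := by
    classical
    rw [eq_top_iff, ← (Pi.basisFun K 𝓗).span_eq, Submodule.span_le]
    rintro _ ⟨H, rfl⟩
    refine ⟨⟨_, _, hmon H.1 H.2, rfl⟩, Submodule.mem_top, ?_⟩
    refine (hψ (monomial (ind H.1) 1)).trans ?_
    funext H'
    change coeff (ind H'.1) (monomial (ind H.1) 1) = _
    rw [coeff_monomial, Pi.basisFun_apply, Pi.single_apply]
    simp only [ind_inj.eq_iff, Subtype.ext_iff, eq_comm]
  have := hfin.fintype
  rw [h2, ← Module.finrank_eq_spanFinrank_of_free, Module.finrank_fintype_fun_eq_card,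
    ← Nat.card_eq_fintype_card, Nat.card_coe_set_eq] at h1
  exact h1

end Pool.Agent.H72Z.Sdef
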